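import Pool.Agent.X136.PT.Final

namespace Pool.Agent.Results.MP_da416c_pr.ThresholdIsOne

open Pool.Agent.X136.PT

/-- Every infinite countable group `Γ` satisfies `lambda_c(Γ) = 1`: the infimum over all
generating measures `mu` of the percolation threshold `lambda_c(mu)` of the Poisson random graph
`Γ_mu(lam)` equals `1`. -/
theorem result : ∀ (Γ : Type) [Group Γ] [Countable Γ] [Infinite Γ], lambdaC Γ = 1 := by
  intro Γ _ _ _
  exact lambdaC_eq_one

end Pool.Agent.Results.MP_da416c_pr.ThresholdIsOne
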